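import Mathlib

set_option autoImplicit false

/-!
A polynomial of small degree does not vanish on too many curves `x_i = t ^ k`, `x_j = R(t)`.
-/

namespace Pool.Agent.W231.R

open Polynomial Finset

variable {F : Type*} [Field F] {σ : Type*} [DecidableEq σ]

/-- the restriction of `H` to the curve `x_i = t ^ k`, `x_j = R(t)`, `x_l = s_l` -/
noncomputable def onC (i j : σ) (k : ℕ) (R : F[X]) (s : σ → ℕ) (H : MvPolynomial σ F) : F[X] :=
  MvPolynomial.aeval (fun l => if l = i then X ^ k else if l = j then R else C (s l : F)) H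

lemma onC_eval (i j : σ) (k : ℕ) (R : F[X]) (s : σ → ℕ) (H : MvPolynomial σ F) (t : F) :
    (onC i j k R s H).eval t = MvPolynomial.eval
      (fun l => if l = i then t ^ k else if l = j then R.eval t else (s l : F)) H := by
  have h1 : (onC i j k R s H).eval t = evalRingHom t (onC i j k R s H) := rfl
  rw [h1, onC, MvPolynomial.aeval_def, MvPolynomial.hom_eval₂]
  have h2 : (evalRingHom t).comp (algebraMap F F[X]) = RingHom.id F := by ext c; simp
  rw [h2]
  change _ = MvPolynomial.eval₂ (RingHom.id F) _ H
  congr 1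
  funext l
  split_ifs <;> simp

lemma sub_natDegree (j : σ) (x : σ → F) (H : MvPolynomial σ F) :
    (MvPolynomial.aeval (fun l => if l = j then (X : F[X]) else C (x l)) H).natDegree ≤
      H.degreeOf j := by
  rw [MvPolynomial.aeval_def, MvPolynomial.eval₂_eq]
  refine natDegree_sum_le_of_forall_le _ _ fun m hm => ?_
  have h0 : m j ≤ H.degreeOf j := MvPolynomial.degreeOf_le_iff.1 le_rfl m hm
  refine (natDegree_C_mul_le _ _).trans (le_trans ?_ h0)
  refine (natDegree_prod_le _ _).trans ?_
  have h1 : ∀ l ∈ m.support, (((if l = j then (X : F[X]) else C (x l)) ^ m l).natDegree) ≤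
      if l = j then m j else 0 := by
    intro l _
    split_ifs with h
    · subst h
      rw [natDegree_pow, natDegree_X, mul_one]
    · rw [natDegree_pow, natDegree_C, mul_zero]
  refine (Finset.sum_le_sum h1).trans ?_
  rw [Finset.sum_ite_eq']
  split_ifs
  · exact le_rfl
  · exact Nat.zero_le _

theorem exists_onC [CharZero F] (H : MvPolynomial σ F) (hH : H ≠ 0) {i j : σ} (hij : i ≠ j)
    {k : ℕ} (hk : 1 ≤ k) (Ps : Finset F[X]) (hlt : H.degreeOf j < Ps.card) :
    ∃ R ∈ Ps, ∃ s : σ → ℕ, onC i j k R s H ≠ 0 := by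
  classical
  -- the bad parameters
  have hbad : {t : ℕ | ∃ P ∈ Ps, ∃ P' ∈ Ps, P ≠ P' ∧ P.eval (t : F) = P'.eval (t : F)}.Finite := by
    have h1 : {t : ℕ | ∃ P ∈ Ps, ∃ P' ∈ Ps, P ≠ P' ∧ P.eval (t : F) = P'.eval (t : F)} ⊆
        ⋃ P ∈ Ps, ⋃ P' ∈ Ps, {t : ℕ | P ≠ P' ∧ P.eval (t : F) = P'.eval (t : F)} := by
      rintro t ⟨P, hP, P', hP', hne, heq⟩
      simp only [Set.mem_iUnion]
      exact ⟨P, hP, P', hP', hne, heq⟩
    refine (Set.Finite.biUnion Ps.finite_toSet fun P _ => Set.Finite.biUnion Ps.finite_toSet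
      fun P' _ => ?_).subset h1
    by_cases hne : P = P'
    · convert Set.finite_empty using 1
      ext t
      simp [hne]
    · have h2 : {t : ℕ | P ≠ P' ∧ P.eval (t : F) = P'.eval (t : F)} ⊆
          (fun t : ℕ => (t : F)) ⁻¹' {y | (P - P').IsRoot y} := by
        rintro t ⟨_, heq⟩
        simp [IsRoot, heq]
      refine (Set.Finite.preimage (fun t _ t' _ htt => ?_)
        (Polynomial.finite_setOfPred_isRoot (sub_ne_zero.2 hne))).subset h2
      exact Nat.cast_injective htt
  set good : Set ℕ := {t : ℕ | ∃ P ∈ Ps, ∃ P' ∈ Ps, P ≠ P' ∧ P.eval (t : F) = P'.eval (t : F)}ᶜ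
    with hgood
  have hginf : good.Infinite := hbad.infinite_compl
  -- the box
  set box : σ → Set F := fun l => if l = i then (fun t : ℕ => (t : F) ^ k) '' good else
    Set.range (fun t : ℕ => (t : F)) with hbox
  have hinf : ∀ l, (box l).Infinite := by
    intro l
    simp only [hbox]
    split_ifs
    · refine hginf.image fun a _ b _ hab => ?_
      have h1 : a ^ k = b ^ k := by
        have : ((a ^ k : ℕ) : F) = ((b ^ k : ℕ) : F) := by push_cast; exact hab
        exact Nat.cast_injective this
      exact Nat.pow_left_injective (n := k) (by omega) h1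
    · exact Set.infinite_range_of_injective Nat.cast_injective
  obtain ⟨x, hxb, hx⟩ : ∃ x ∈ Set.pi Set.univ box, MvPolynomial.eval x H ≠ 0 := by
    by_contra hcon
    push Not at hcon
    exact hH (MvPolynomial.funext_set box hinf fun x hx => by rw [hcon x hx, map_zero])
  have hxi : x i ∈ (fun t : ℕ => (t : F) ^ k) '' good := by
    have := hxb i (Set.mem_univ i)
    simpa [hbox] using this
  obtain ⟨τ, hτ, hτx⟩ := hxi
  have hxl : ∀ l, l ≠ i → ∃ n : ℕ, (n : F) = x l := by
    intro l hl
    have := hxb l (Set.mem_univ l)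
    simp only [hbox, if_neg hl, Set.mem_range] at this
    exact this
  have hs : ∃ s : σ → ℕ, ∀ l, l ≠ i → (s l : F) = x l := by
    refine ⟨fun l => if h : l = i then 0 else (hxl l h).choose, fun l hl => ?_⟩
    simp only [dif_neg hl]
    exact (hxl l hl).choose_spec
  obtain ⟨s, hs⟩ := hs
  set g : F[X] := MvPolynomial.aeval (fun l => if l = j then (X : F[X]) else C (x l)) H with hg
  have hgev : ∀ y : F, g.eval y = MvPolynomial.eval (fun l => if l = j then y else x l) H := by
    intro y
    have h1 : g.eval y = evalRingHom y g := rfl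
    rw [h1, hg, MvPolynomial.aeval_def, MvPolynomial.hom_eval₂]
    have h2 : (evalRingHom y).comp (algebraMap F F[X]) = RingHom.id F := by ext c; simp
    rw [h2]
    change _ = MvPolynomial.eval₂ (RingHom.id F) _ H
    congr 1
    funext l
    split_ifs <;> simp
  have hg0 : g ≠ 0 := by
    intro h0
    apply hx
    have h1 := hgev (x j)
    rw [h0, eval_zero] at h1
    rw [h1]
    refine congrArg (fun y => MvPolynomial.eval y H) (funext fun l => ?_)
    split_ifs with h
    · rw [h]
    · rfl
  have hinj : Set.InjOn (fun P : F[X] => P.eval (τ : F)) Ps := by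
    intro P hP P' hP' heq
    by_contra hne
    exact hτ ⟨P, hP, P', hP', hne, heq⟩
  obtain ⟨R, hR, hRg⟩ : ∃ R ∈ Ps, g.eval (R.eval (τ : F)) ≠ 0 := by
    by_contra hcon
    push Not at hcon
    have h1 : Ps.card ≤ g.natDegree := by
      calc Ps.card = (Ps.image fun P : F[X] => P.eval (τ : F)).card :=
            (Finset.card_image_of_injOn hinj).symm
        _ ≤ g.roots.toFinset.card := by
            refine Finset.card_le_card fun w hw => ?_
            obtain ⟨P, hP, rfl⟩ := Finset.mem_image.1 hw
            rw [Multiset.mem_toFinset, mem_roots hg0]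
            exact hcon P hP
        _ ≤ Multiset.card g.roots := Multiset.toFinset_card_le _
        _ ≤ g.natDegree := card_roots' _
    have h2 := sub_natDegree j x H
    rw [← hg] at h2
    omega
  refine ⟨R, hR, s, fun h0 => hRg ?_⟩
  have h1 := onC_eval i j k R s H (τ : F)
  rw [h0, eval_zero] at h1
  rw [hgev, h1]
  refine congrArg (fun y => MvPolynomial.eval y H) (funext fun l => ?_)
  by_cases hlj : l = j
  · subst hlj
    rw [if_pos rfl, if_neg (Ne.symm hij), if_pos rfl]
  · rw [if_neg hlj]
    by_cases hli : l = i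
    · subst hli
      rw [if_pos rfl]
      exact hτx.symm
    · rw [if_neg hli, if_neg hlj, hs l hli]

end Pool.Agent.W231.R
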