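import Pool.Agent.W231.R.Est
import Pool.Agent.W231.R.Count

set_option autoImplicit false

/-!
The degree of the exceptional set, points of bounded degree.
-/

namespace Pool.Agent.W231.R

open NumberField IsDedekindDomain Height Finset Module Pool.Agent.W231.V Pool.Agent.W231.M

open Polynomial in
lemma polyA_root {F : Type*} [Field F] {k : ℕ} {ζ : F} (hζ : IsPrimitiveRoot ζ k)
    {T : Finset ℕ} (hT : T ⊆ range k) {i : ℕ} (hi : i ∈ range k) :
    (polyA ζ T).eval (ζ ^ i)⁻¹ = 0 ↔ i ∈ T := by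
  have hk : k ≠ 0 := by
    rintro rfl
    simp at hi
  have hζ0 : ζ ≠ 0 := hζ.ne_zero hk
  rw [polyA_eval, fA, Finset.prod_eq_zero_iff]
  constructor
  · rintro ⟨j, hj, h⟩
    have h1 : ζ ^ j = ζ ^ i := by
      have h2 : ζ ^ i ≠ 0 := pow_ne_zero _ hζ0
      rw [sub_eq_zero] at h
      field_simp at h
      exact h.symm
    have := hζ.pow_inj (Finset.mem_range.1 (hT hj)) (Finset.mem_range.1 hi) h1
    rwa [← this]
  · intro h
    exact ⟨i, h, by rw [mul_inv_cancel₀ (pow_ne_zero _ hζ0), sub_self]⟩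

lemma polyA_inj {F : Type*} [Field F] {k : ℕ} {ζ : F} (hζ : IsPrimitiveRoot ζ k) :
    Set.InjOn (polyA ζ) ((range k).powerset : Set (Finset ℕ)) := by
  intro T hT T' hT' h
  rw [Finset.mem_coe, Finset.mem_powerset] at hT hT'
  ext i
  by_cases hi : i ∈ range k
  · rw [← polyA_root hζ hT hi, ← polyA_root hζ hT' hi, h]
  · exact ⟨fun h1 => absurd (hT h1) hi, fun h1 => absurd (hT' h1) hi⟩

lemma deg_map_le {σ R S : Type*} [CommSemiring R] [CommSemiring S] (f : R →+* S)
    (P : MvPolynomial σ R) (i : σ) : (MvPolynomial.map f P).degreeOf i ≤ P.degreeOf i := by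
  rw [MvPolynomial.degreeOf_le_iff]
  intro m hm
  exact MvPolynomial.degreeOf_le_iff.1 le_rfl m (MvPolynomial.support_map_subset _ _ hm)

/-- evaluation on the curve -/
lemma aeval_onC {R L0 L : Type*} [CommRing R] [Field L0] [Field L] [Algebra R L0] [Algebra R L]
    [Algebra L0 L] [Subsingleton (R →+* L)] (ζ0 : L0) (T : Finset ℕ) (k : ℕ) (s : Fin 2 → ℕ)
    (P : MvPolynomial (Fin 2) R) (t : L) :
    Polynomial.aeval t (onC 0 1 k (polyA ζ0 T) s (MvPolynomial.map (algebraMap R L0) P)) =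
      MvPolynomial.aeval (pnt (algebraMap L0 L ζ0) T k t) P := by
  have h1 : Polynomial.aeval t (onC 0 1 k (polyA ζ0 T) s (MvPolynomial.map (algebraMap R L0) P)) =
      (Polynomial.aeval t : Polynomial L0 →ₐ[L0] L).toRingHom
        (onC 0 1 k (polyA ζ0 T) s (MvPolynomial.map (algebraMap R L0) P)) := rfl
  rw [h1, onC, MvPolynomial.aeval_def, MvPolynomial.eval₂_map, MvPolynomial.hom_eval₂,
    MvPolynomial.aeval_def]
  congr 1
  · exact Subsingleton.elim _ _
  · funext l
    fin_cases l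
    · change Polynomial.aeval t (Polynomial.X ^ k) = t ^ k
      simp
    · change Polynomial.aeval t (polyA ζ0 T) = fA (algebraMap L0 L ζ0) T t
      exact polyA_aeval ζ0 T t

/-- for large `u` the solutions avoid the roots of a given polynomial -/
lemma avoid {L0 : Type} [Field L0] [NumberField L0] (ζ0 : L0) (T : Finset ℕ) (R : Polynomial L0)
    (hR : R ≠ 0) : ∃ u0 : ℕ, ∀ u : ℕ, u0 ≤ u → ∀ (L : Type) [Field L] [NumberField L]
      [Algebra L0 L] (t : L), t * fA (algebraMap L0 L ζ0) T t = u → Polynomial.aeval t R ≠ 0 := by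
  classical
  set Ω := AlgebraicClosure L0 with hΩ
  set φ := algebraMap L0 Ω with hφ
  have hR' : R.map φ ≠ 0 := (Polynomial.map_ne_zero_iff φ.injective).2 hR
  set B : Finset Ω := (R.map φ).roots.toFinset.image fun y => y * fA (φ ζ0) T y with hB
  have hfin : {u : ℕ | (u : Ω) ∈ B}.Finite :=
    Set.Finite.preimage (fun _ _ _ _ h => Nat.cast_injective h) B.finite_toSet
  obtain ⟨u0, hu0⟩ := hfin.bddAbove
  refine ⟨u0 + 1, fun u hu L _ _ _ t ht h0 => ?_⟩
  have hmem : u ∈ {u : ℕ | (u : Ω) ∈ B} := by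
    have : FiniteDimensional L0 L := Module.Finite.of_restrictScalars_finite ℚ L0 L
    let j : L →ₐ[L0] Ω := IsAlgClosed.lift
    change (u : Ω) ∈ B
    rw [hB, Finset.mem_image]
    refine ⟨j t, ?_, ?_⟩
    · rw [Multiset.mem_toFinset, Polynomial.mem_roots hR', Polynomial.IsRoot.def,
        Polynomial.eval_map, ← Polynomial.aeval_def, Polynomial.aeval_algHom_apply, h0, map_zero]
    · have h1 : j (t * fA (algebraMap L0 L ζ0) T t) = j u := congrArg j ht
      rw [map_mul, map_natCast] at h1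
      rw [← h1]
      congr 1
      unfold fA
      rw [map_prod]
      refine Finset.prod_congr rfl fun i _ => ?_
      rw [map_sub, map_one, map_mul, map_pow, AlgHom.commutes]
  have := hu0 hmem
  omega

theorem main4 (p : ℕ) (hp : p.Prime) (E : MvPolynomial (Fin 2) ℤ) (hE : E ≠ 0)
    (G : MvPolynomial (Fin 2) ℚ) (hG : G ≠ 0) {ε : ℝ} (C : ℝ) {k m : ℕ} (hk : 1 ≤ k)
    (hεk : (k + m) * ε < 1)
    (hlt : G.degreeOf 1 + E.degreeOf 1 + 1 < ∑ j ∈ range (m + 1), k.choose j) :
    ∃ (L : Type) (_ : Field L) (_ : NumberField L) (x : Fin 2 → L),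
      finrank ℚ L ≤ (m + 1) * k.totient ∧ x 0 ≠ 0 ∧ x 0 ≠ 1 ∧ x 1 ≠ 0 ∧ x 1 ≠ 1 ∧
      MvPolynomial.aeval x E ≠ 0 ∧ MvPolynomial.aeval x G ≠ 0 ∧
      ∀ U : Finset (HeightOneSpectrum (𝓞 L)), (∀ v, v ∉ U → fv v (p : L) = 1) →
        ε * (logHeight₁ (x 0) + logHeight₁ (x 1)) + Real.log |((discr L : ℤ) : ℝ)| +
          finrank ℚ L * C < Sm U (fun f => loc f E x) - 2 * logHeight₁ (x 0) -
            2 * logHeight₁ (x 1) := by
  classical
  have : NeZero k := ⟨by omega⟩
  have : NeZero ((k : ℕ) : ℚ) := ⟨by exact_mod_cast (by omega : k ≠ 0)⟩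
  set L0 := CyclotomicField k ℚ with hL0
  have hcyc : IsCyclotomicExtension {k} ℚ L0 := by
    have h : @IsCyclotomicExtension {k} ℚ (CyclotomicField k ℚ) _ _
      (CyclotomicField.algebra k ℚ) := inferInstance
    convert h
    exact Subsingleton.elim _ _
  set ζ0 : L0 := IsCyclotomicExtension.zeta k ℚ L0 with hζ0
  have hζ : IsPrimitiveRoot ζ0 k := IsCyclotomicExtension.zeta_spec k ℚ L0
  -- the polynomial
  set EL : MvPolynomial (Fin 2) L0 := MvPolynomial.map (algebraMap ℤ L0) E with hEL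
  set GG : MvPolynomial (Fin 2) L0 := MvPolynomial.map (algebraMap ℚ L0) G with hGG
  have hEL0 : EL ≠ 0 := by
    intro h
    exact hE (MvPolynomial.map_injective _ (algebraMap ℤ L0).injective_int
      (by rw [map_zero]; exact h))
  have hGG0 : GG ≠ 0 := by
    intro h
    exact hG (MvPolynomial.map_injective _ (algebraMap ℚ L0).injective
      (by rw [map_zero]; exact h))
  set H : MvPolynomial (Fin 2) L0 := EL * GG * (MvPolynomial.X 1 - 1) with hH
  have hX1 : (MvPolynomial.X 1 - 1 : MvPolynomial (Fin 2) L0) ≠ 0 := by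
    intro h
    have := congrArg (MvPolynomial.eval (fun _ => (0 : L0))) h
    simp at this
  have hH0 : H ≠ 0 := mul_ne_zero (mul_ne_zero hEL0 hGG0) hX1
  have hHdeg : H.degreeOf 1 ≤ G.degreeOf 1 + E.degreeOf 1 + 1 := by
    have d1 : EL.degreeOf 1 ≤ E.degreeOf 1 := deg_map_le _ _ _
    have d2 : GG.degreeOf 1 ≤ G.degreeOf 1 := deg_map_le _ _ _
    have d3 : (MvPolynomial.X 1 - 1 : MvPolynomial (Fin 2) L0).degreeOf 1 ≤ 1 := by
      refine (MvPolynomial.degreeOf_sub_le _ _ _).trans ?_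
      rw [MvPolynomial.degreeOf_X, MvPolynomial.degreeOf_one]
      simp
    have d4 := MvPolynomial.degreeOf_mul_le 1 (EL * GG) (MvPolynomial.X 1 - 1)
    have d5 := MvPolynomial.degreeOf_mul_le 1 EL GG
    rw [← hH] at d4
    omega
  obtain ⟨R, hR, s, hRs⟩ := exists_onC H hH0 (i := 0) (j := 1) (by decide) hk
    (((range (m + 1)).biUnion fun j => powersetCard j (range k)).image (polyA ζ0)) (by
      rw [Finset.card_image_of_injOn ((polyA_inj hζ).mono fun T hT => ?_), Finset.card_biUnion]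
      · simp only [Finset.card_powersetCard, Finset.card_range]
        omega
      · intro i _ j _ hij
        exact Finset.pairwise_disjoint_powersetCard (range k) hij
      · rw [Finset.mem_coe, Finset.mem_biUnion] at hT
        obtain ⟨j, _, hj⟩ := hT
        rw [Finset.mem_coe, Finset.mem_powerset]
        exact (Finset.mem_powersetCard.1 hj).1)
  obtain ⟨T, hT', rfl⟩ := Finset.mem_image.1 hR
  obtain ⟨j, hj, hTj⟩ := Finset.mem_biUnion.1 hT'
  rw [Finset.mem_powersetCard] at hTj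
  have hT : T ⊆ range k := hTj.1
  have hcard : T.card ≤ m := by
    rw [hTj.2]
    exact Nat.lt_succ_iff.1 (Finset.mem_range.1 hj)
  -- the product
  set R0 : Polynomial L0 := onC 0 1 k (polyA ζ0 T) s H * (1 - Polynomial.X ^ k) with hR0
  have hXk : (1 - Polynomial.X ^ k : Polynomial L0) ≠ 0 := by
    intro h
    have := congrArg (Polynomial.eval 0) h
    simp [show k ≠ 0 by omega] at this
  have hR00 : R0 ≠ 0 := mul_ne_zero hRs hXk
  obtain ⟨u0, hu0⟩ := avoid ζ0 T R0 hR00
  -- constants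
  set a : ℝ := (T.card : ℝ) with ha
  have ham : a ≤ m := by rw [ha]; exact_mod_cast hcard
  have ha0 : 0 ≤ a := Nat.cast_nonneg _
  have hk0 : (0 : ℝ) < k := by exact_mod_cast (by omega : 0 < k)
  set ε' : ℝ := max ε 0 with hε'
  have hε'0 : 0 ≤ ε' := le_max_right _ _
  have hε'k : ε' * (k + a) < 1 := by
    have h1 : ε' * (k + a) ≤ ε' * (k + m) := mul_le_mul_of_nonneg_left (by linarith) hε'0
    rcases max_cases ε 0 with ⟨h, _⟩ | ⟨h, _⟩
    · rw [hε', h] at h1 ⊢; linarith
    · rw [hε', h]; linarith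
  set δ : ℝ := 1 - ε' * (k + a) with hδ
  have hδ0 : 0 < δ := by linarith
  set c0 : ℝ := 6 * k * Real.log 2 + Real.log (cE E) with hc0
  set Nm : ℝ := (((m + 1) * k.totient : ℕ) : ℝ) with hNm
  set C1 : ℝ := c0 + 2 * a * Real.log 2 + ε' * a * Real.log 2 + 2 * Real.log Nm +
    2 * a * Real.log 2 + C with hC1
  have hlogp : 0 < Real.log p := Real.log_pos (by exact_mod_cast hp.one_lt)
  have ha1 : 0 < a + 1 := by linarith
  obtain ⟨n, hn1, hn2⟩ : ∃ n : ℕ, u0 ≤ p ^ n ∧ C1 < δ * (n * Real.log p / (a + 1) - Real.log 2) := by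
    have hev1 : ∀ᶠ n : ℕ in Filter.atTop, u0 ≤ p ^ n := by
      have := (tendsto_pow_atTop_atTop_of_one_lt hp.one_lt).eventually_ge_atTop u0
      exact this
    have hev2 : ∀ᶠ n : ℕ in Filter.atTop, C1 + 1 + δ * Real.log 2 ≤
        (δ * (Real.log p / (a + 1))) * n := by
      have hpos : 0 < δ * (Real.log p / (a + 1)) := by positivity
      exact (tendsto_natCast_atTop_atTop.const_mul_atTop hpos).eventually_ge_atTop _
    obtain ⟨n, h1, h2⟩ := (hev1.and hev2).exists
    refine ⟨n, h1, ?_⟩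
    have e : δ * (n * Real.log p / (a + 1) - Real.log 2) =
        (δ * (Real.log p / (a + 1))) * n - δ * Real.log 2 := by ring
    rw [e]
    linarith
  have hu1 : 1 ≤ p ^ n := Nat.one_le_pow _ _ hp.pos
  obtain ⟨L, hL1, hL2, hL3, t, hti, htrel, hfin, hdisc⟩ := exists_field L0 k hζ T (p ^ n) hu1
  have hR0t := hu0 (p ^ n) hn1 L t htrel
  rw [hR0, hH, map_mul] at hR0t
  set ζ : L := algebraMap L0 L ζ0 with hζd
  have hζL : IsPrimitiveRoot ζ k := hζ.map_of_injective (algebraMap L0 L).injective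
  have hon : ∀ P Q : MvPolynomial (Fin 2) L0, onC 0 1 k (polyA ζ0 T) s (P * Q) =
      onC 0 1 k (polyA ζ0 T) s P * onC 0 1 k (polyA ζ0 T) s Q := fun P Q => by
    unfold onC; rw [map_mul]
  rw [hon, hon, map_mul, map_mul] at hR0t
  have htk : t ^ k ≠ 1 := by
    have h1 := right_ne_zero_of_mul hR0t
    rw [map_sub, map_one, map_pow, Polynomial.aeval_X] at h1
    intro h2
    rw [h2, sub_self] at h1
    exact h1 rfl
  have h3 := left_ne_zero_of_mul hR0t
  have hA1 : fA ζ T t ≠ 1 := by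
    have h1 := right_ne_zero_of_mul h3
    have h2 : onC 0 1 k (polyA ζ0 T) s (MvPolynomial.X 1 - 1) = polyA ζ0 T - 1 := by
      unfold onC
      rw [map_sub, map_one, MvPolynomial.aeval_X]
      simp
    rw [h2, map_sub, map_one, polyA_aeval] at h1
    exact sub_ne_zero.1 h1
  have hEx : MvPolynomial.aeval (pnt ζ T k t) E ≠ 0 := by
    have h1 := left_ne_zero_of_mul (left_ne_zero_of_mul h3)
    rwa [hEL, aeval_onC] at h1
  have hGx : MvPolynomial.aeval (pnt ζ T k t) G ≠ 0 := by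
    have h1 := right_ne_zero_of_mul (left_ne_zero_of_mul h3)
    rwa [hGG, aeval_onC] at h1
  have hu0' : ((p ^ n : ℕ) : L) ≠ 0 := Nat.cast_ne_zero.2 (by omega)
  have ht0 : t ≠ 0 := left_ne_zero_of_mul (by rw [htrel]; exact hu0')
  have hA0 : fA ζ T t ≠ 0 := right_ne_zero_of_mul (by rw [htrel]; exact hu0')
  refine ⟨L, hL1, hL2, pnt ζ T k t, ?_, pow_ne_zero k ht0, htk, hA0, hA1, hEx, hGx,
    fun U hU => ?_⟩
  · calc finrank ℚ L ≤ k.totient * (T.card + 1) := hfin
      _ ≤ k.totient * (m + 1) := Nat.mul_le_mul_left _ (by omega)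
      _ = _ := mul_comm _ _
  · obtain ⟨q1, q2, q3, q4⟩ := estimate U hk hζL hT hu1 (by
      intro v hv
      rw [Nat.cast_pow, map_pow, hU v hv, one_pow]) E hE hti htrel hA1 htk hEx
    rw [Nat.cast_pow, Real.log_pow] at hdisc q4
    set N : ℝ := (finrank ℚ L : ℝ) with hN
    have hN0 : 0 < N := by
      rw [hN]
      exact_mod_cast finrank_pos
    set Ht := logHeight₁ t with hHt
    set ℓ : ℝ := n * Real.log p / (a + 1) with hℓ
    have hNm' : Real.log N ≤ Real.log Nm := by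
      refine Real.log_le_log hN0 ?_
      rw [hN, hNm]
      have : finrank ℚ L ≤ (m + 1) * k.totient := by
        calc finrank ℚ L ≤ k.totient * (T.card + 1) := hfin
          _ ≤ k.totient * (m + 1) := Nat.mul_le_mul_left _ (by omega)
          _ = _ := mul_comm _ _
      exact_mod_cast this
    have hl2 : 0 ≤ Real.log 2 := Real.log_nonneg (by norm_num)
    have hh1 : 0 ≤ logHeight₁ (pnt ζ T k t 1) := zero_le_logHeight₁ _
    have hh0 : 0 ≤ logHeight₁ (pnt ζ T k t 0) := zero_le_logHeight₁ _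
    have s1 : ε * (logHeight₁ (pnt ζ T k t 0) + logHeight₁ (pnt ζ T k t 1)) ≤
        ε' * (k * Ht + (a * Ht + N * (a * Real.log 2))) := by
      calc _ ≤ ε' * (logHeight₁ (pnt ζ T k t 0) + logHeight₁ (pnt ζ T k t 1)) :=
            mul_le_mul_of_nonneg_right (le_max_left _ _) (by linarith)
        _ ≤ _ := mul_le_mul_of_nonneg_left (by rw [q2]; linarith) hε'0
    have s2 : δ * (N * (ℓ - Real.log 2)) ≤ δ * Ht := mul_le_mul_of_nonneg_left q4 hδ0.le
    have s3 : N * C1 < N * (δ * (ℓ - Real.log 2)) := mul_lt_mul_of_pos_left hn2 hN0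
    have s4 : a * (N * (ℓ - Real.log 2)) ≤ a * Ht := mul_le_mul_of_nonneg_left q4 ha0
    have s5 : N * Real.log N ≤ N * Real.log Nm := mul_le_mul_of_nonneg_left hNm' hN0.le
    have s6 : δ * Ht = Ht - ε' * (k + a) * Ht := by rw [hδ]; ring
    have s7 : N * C1 = N * c0 + 2 * a * (N * Real.log 2) + ε' * a * (N * Real.log 2) +
      2 * (N * Real.log Nm) + 2 * a * (N * Real.log 2) + N * C := by rw [hC1]; ring
    rw [s6] at s2
    rw [q2]
    rw [q2] at s1
    rw [s7] at s3
    nlinarith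
end Pool.Agent.W231.R
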