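import Mathlib

set_option autoImplicit false

/-!
An upper bound for the discriminant of a number field.
-/

namespace Pool.Agent.W231.R

open NumberField Module Finset
open scoped Matrix

lemma det_abs_le {ι : Type*} [Fintype ι] [DecidableEq ι] (A : Matrix ι ι ℂ) (M : ι → ℝ)
    (h : ∀ i j, ‖A i j‖ ≤ M i) : ‖A.det‖ ≤ (Fintype.card ι).factorial * ∏ i, M i := by
  have hM : ∀ i, 0 ≤ M i := fun i => (norm_nonneg _).trans (h i i)
  rw [← Matrix.det_transpose, Matrix.det_apply]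
  refine (norm_sum_le _ _).trans ?_
  have h1 : ∀ σ : Equiv.Perm ι, ‖Equiv.Perm.sign σ • ∏ i, A.transpose (σ i) i‖ ≤ ∏ i, M i := by
    intro σ
    have e : ‖Equiv.Perm.sign σ • ∏ i, A.transpose (σ i) i‖ = ‖∏ i, A.transpose (σ i) i‖ := by
      rcases Int.units_eq_one_or (Equiv.Perm.sign σ) with hs | hs <;> simp [hs]
    rw [e, norm_prod]
    exact Finset.prod_le_prod (fun i _ => norm_nonneg _) fun i _ => h i (σ i)
  refine (Finset.sum_le_sum fun σ _ => h1 σ).trans ?_
  rw [Finset.sum_const, Finset.card_univ, Fintype.card_perm, nsmul_eq_mul]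

theorem abs_discr_le {L : Type*} [Field L] [NumberField L] {ι : Type*} [Fintype ι] [DecidableEq ι]
    (b : Basis ι ℚ L) (hb : ∀ i, IsIntegral ℤ (b i)) (M : ι → ℝ)
    (hM : ∀ i (σ : L →+* ℂ), ‖σ (b i)‖ ≤ M i) :
    |(discr L : ℝ)| ≤ ((Fintype.card ι).factorial * ∏ i, M i) ^ 2 := by
  classical
  -- the integral basis
  set c : Basis ι ℤ (𝓞 L) := (RingOfIntegers.basis L).reindex
    ((integralBasis L).indexEquiv b) with hc
  -- the coordinates
  set P : Matrix ι ι ℤ := fun i j => c.repr ⟨b j, hb j⟩ i with hP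
  have hcoord : ∀ j, b j = ∑ i, (c i : L) * ((P i j : ℚ) : L) := by
    intro j
    have h1 := c.sum_repr ⟨b j, hb j⟩
    have h2 := congrArg (algebraMap (𝓞 L) L) h1
    rw [map_sum] at h2
    rw [show b j = algebraMap (𝓞 L) L ⟨b j, hb j⟩ from rfl, ← h2]
    refine Finset.sum_congr rfl fun i _ => ?_
    rw [zsmul_eq_mul, map_mul, mul_comm]
    simp [hP]
  have hvec : (b : ι → L) = (fun i => (c i : L)) ᵥ* (P.map (Int.castRingHom ℚ)).map (algebraMap ℚ L) := by
    funext j
    rw [hcoord j]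
    simp [Matrix.vecMul, dotProduct]
  have hdisc : Algebra.discr ℚ b = ((P.map (Int.castRingHom ℚ)).det) ^ 2 *
      Algebra.discr ℚ (fun i => (c i : L)) := by
    rw [hvec]
    exact Algebra.discr_of_matrix_vecMul _ _
  have hdc : Algebra.discr ℚ (fun i => (c i : L)) = (discr L : ℚ) := by
    rw [← NumberField.discr_eq_discr L c]
    change _ = algebraMap ℤ ℚ _
    rw [← Algebra.discr_localizationLocalization ℤ (nonZeroDivisors ℤ) L]
    congr 1
    ext i
    rw [Basis.localizationLocalization_apply]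
  have hdet : (P.map (Int.castRingHom ℚ)).det = ((P.det : ℤ) : ℚ) := by
    have := (RingHom.map_det (Int.castRingHom ℚ) P).symm
    exact this
  rw [hdc, hdet] at hdisc
  have hb0 : Algebra.discr ℚ b ≠ 0 := Algebra.discr_not_zero_of_basis ℚ b
  have hP0 : P.det ≠ 0 := by
    intro h0
    apply hb0
    rw [hdisc, h0]
    simp
  have hP1 : (1 : ℝ) ≤ (P.det : ℝ) ^ 2 := by
    have h1 : (1 : ℤ) ≤ P.det ^ 2 := by
      have := sq_pos_of_ne_zero hP0
      linarith
    exact_mod_cast h1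
  -- the embeddings
  have hcard : Fintype.card ι = Fintype.card (L →ₐ[ℚ] ℂ) := by
    rw [AlgHom.card]
    exact (Module.finrank_eq_card_basis b).symm
  set e : ι ≃ (L →ₐ[ℚ] ℂ) := Fintype.equivOfCardEq hcard with he
  have h2 := Algebra.discr_eq_det_embeddingsMatrixReindex_pow_two ℚ ℂ (b : ι → L) e
  have h3 : ‖(Algebra.embeddingsMatrixReindex ℚ ℂ (b : ι → L) e).det‖ ≤
      (Fintype.card ι).factorial * ∏ i, M i :=
    det_abs_le _ M fun i j => hM i (e j : L →+* ℂ)
  have h4 : |((Algebra.discr ℚ b : ℚ) : ℝ)| =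
      ‖(Algebra.embeddingsMatrixReindex ℚ ℂ (b : ι → L) e).det‖ ^ 2 := by
    rw [← norm_pow, ← h2]
    rw [eq_ratCast]
    have : ((Algebra.discr ℚ b : ℚ) : ℂ) = (((Algebra.discr ℚ b : ℚ) : ℝ) : ℂ) := by push_cast; rfl
    rw [this, Complex.norm_real, Real.norm_eq_abs]
  calc |(discr L : ℝ)| ≤ (P.det : ℝ) ^ 2 * |(discr L : ℝ)| :=
        le_mul_of_one_le_left (abs_nonneg _) hP1
    _ = |((Algebra.discr ℚ b : ℚ) : ℝ)| := by
        rw [hdisc, Rat.cast_mul, Rat.cast_pow, Rat.cast_intCast, Rat.cast_intCast, abs_mul,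
          abs_of_nonneg (sq_nonneg (P.det : ℝ))]
    _ = _ := h4
    _ ≤ _ := pow_le_pow_left₀ (norm_nonneg _) h3 2

end Pool.Agent.W231.R
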