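import Pool.Agent.W231.R.Loc

set_option autoImplicit false

/-!
The local heights along the curves.
-/

namespace Pool.Agent.W231.R

open NumberField IsDedekindDomain Height Finset Pool.Agent.W231.V Pool.Agent.W231.M

variable {L : Type*} [Field L]

/-- the sum of the local heights -/
noncomputable def loc (a : L → ℝ) (E : MvPolynomial (Fin 2) ℤ) (x : Fin 2 → L) : ℝ :=
  Real.log (max 1 (a (x 0))) + Real.log (max 1 (a (x 0)) / a (x 0)) +
    Real.log (max 1 (a (x 1))) + Real.log (max 1 (a (x 1)) / a (x 1 - 1)) +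
    2 * min (Real.log (max 1 (a (x 0)) / a (x 0 - 1))) (Real.log (max 1 (a (x 1)) / a (x 1))) +
    Real.log (max 1 (a (x 0)) ^ E.degreeOf 0 * max 1 (a (x 1)) ^ E.degreeOf 1 /
      a (MvPolynomial.aeval x E))

/-- the point of the curve -/
def pnt (ζ : L) (T : Finset ℕ) (k : ℕ) (t : L) : Fin 2 → L := ![t ^ k, fA ζ T t]

lemma fA_mul {ζ : L} {k : ℕ} (hk : 1 ≤ k) (hζ : IsPrimitiveRoot ζ k) {T : Finset ℕ} (hT : T ⊆ range k) (t : L) :
    fA ζ T t * fA ζ (range k \ T) t = 1 - t ^ k := by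
  have h1 : fA ζ T t * fA ζ (range k \ T) t = ∏ i ∈ range k, (1 - ζ ^ i * t) := by
    unfold fA
    rw [mul_comm]
    exact Finset.prod_sdiff hT
  rw [h1]
  have h2 := hζ.pow_sub_pow_eq_prod_sub_mul 1 t (by omega : 0 < k)
  rw [one_pow] at h2
  rw [h2]
  classical
  have h3 : Polynomial.nthRootsFinset k (1 : L) = (range k).image (fun i => ζ ^ i) := by
    ext μ
    rw [Polynomial.mem_nthRootsFinset (by omega), Finset.mem_image]
    constructor
    · intro h
      have : NeZero k := ⟨by omega⟩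
      obtain ⟨i, hi, rfl⟩ := hζ.eq_pow_of_pow_eq_one h
      exact ⟨i, Finset.mem_range.2 hi, rfl⟩
    · rintro ⟨i, _, rfl⟩
      rw [← pow_mul, mul_comm, pow_mul, hζ.pow_eq_one, one_pow]
  rw [h3, Finset.prod_image]
  intro i hi j hj hij
  exact hζ.pow_inj (Finset.mem_range.1 hi) (Finset.mem_range.1 hj) hij

lemma max_pow (y : ℝ) (hy : 0 ≤ y) (k : ℕ) : max 1 (y ^ k) = max 1 y ^ k := by
  rcases le_total y 1 with h | h
  · rw [max_eq_left h, one_pow, max_eq_left (pow_le_one₀ hy h)]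
  · rw [max_eq_right h, max_eq_right (one_le_pow₀ h)]

lemma abv_mv2 (f : AbsoluteValue L ℝ) (E : MvPolynomial (Fin 2) ℤ) (x : Fin 2 → L) :
    f (MvPolynomial.aeval x E) ≤ (∑ m ∈ E.support, f ((E.coeff m : ℤ) : L)) *
      (max 1 (f (x 0)) ^ E.degreeOf 0 * max 1 (f (x 1)) ^ E.degreeOf 1) := by
  rw [MvPolynomial.aeval_def, MvPolynomial.eval₂_eq', Finset.sum_mul]
  refine (f.sum_le _ _).trans (Finset.sum_le_sum fun m hm => ?_)
  rw [map_mul]
  refine mul_le_mul_of_nonneg_left ?_ (f.nonneg _)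
  rw [Fin.prod_univ_two, map_mul, map_pow, map_pow]
  have h : ∀ i, f (x i) ^ m i ≤ max 1 (f (x i)) ^ E.degreeOf i := by
    intro i
    calc f (x i) ^ m i ≤ max 1 (f (x i)) ^ m i :=
          pow_le_pow_left₀ (f.nonneg _) (le_max_right _ _) _
      _ ≤ _ := pow_le_pow_right₀ (le_max_left _ _) (MvPolynomial.degreeOf_le_iff.1 le_rfl m hm)
  exact mul_le_mul (h 0) (h 1) (pow_nonneg (f.nonneg _) _) (by positivity)

/-- the constant -/
noncomputable def cE (E : MvPolynomial (Fin 2) ℤ) : ℝ := ∑ m ∈ E.support, |((E.coeff m : ℤ) : ℝ)|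

lemma one_le_cE {E : MvPolynomial (Fin 2) ℤ} (hE : E ≠ 0) : 1 ≤ cE E := by
  obtain ⟨m, hm⟩ := MvPolynomial.support_nonempty.2 hE
  have h1 : (1 : ℝ) ≤ |((E.coeff m : ℤ) : ℝ)| := by
    have : (1 : ℤ) ≤ |E.coeff m| := Int.one_le_abs (MvPolynomial.mem_support_iff.1 hm)
    exact_mod_cast this
  exact h1.trans (Finset.single_le_sum (f := fun m => |((E.coeff m : ℤ) : ℝ)|)
    (fun _ _ => abs_nonneg _) hm)

theorem arch_loc (f : AbsoluteValue L ℝ) {ζ : L} (hf : ∀ n : ℤ, f (n : L) ≤ |(n : ℝ)|)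
    {k : ℕ} (hk : 1 ≤ k) (hζ : IsPrimitiveRoot ζ k) (hfζ : f ζ = 1) {T : Finset ℕ} (hT : T ⊆ range k)
    (E : MvPolynomial (Fin 2) ℤ) (hE : E ≠ 0) {t : L} (ht : t ≠ 0) (hA : fA ζ T t ≠ 0)
    (hA1 : fA ζ T t ≠ 1) (htk : t ^ k ≠ 1) (hEx : MvPolynomial.aeval (pnt ζ T k t) E ≠ 0) :
    (2 * k + 3 * T.card + 1) * Real.log (max 1 (f t)) - (k + 1) * Real.log (f t) -
      2 * Real.log (f (fA ζ T t)) - (6 * k * Real.log 2 + Real.log (cE E)) ≤
      loc f E (pnt ζ T k t) := by
  set A := fA ζ T t with hAd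
  set B := fA ζ (range k \ T) t with hBd
  have hAB : A * B = 1 - t ^ k := fA_mul hk hζ hT t
  set m := max 1 (f t) with hm
  have hm1 : 1 ≤ m := le_max_left _ _
  have hm0 : 0 < m := by linarith
  have hcard : T.card ≤ k := by
    have := Finset.card_le_card hT
    rwa [Finset.card_range] at this
  have hB0 : B ≠ 0 := by
    intro h
    rw [h, mul_zero] at hAB
    exact htk (sub_eq_zero.1 hAB.symm).symm
  have x0 : pnt ζ T k t 0 = t ^ k := rfl
  have x1 : pnt ζ T k t 1 = A := rfl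
  have pt : 0 < f t := f.pos_iff.2 ht
  have pA : 0 < f A := f.pos_iff.2 hA
  have pB : 0 < f B := f.pos_iff.2 hB0
  have pA1 : 0 < f (A - 1) := f.pos_iff.2 (sub_ne_zero.2 hA1)
  have pE : 0 < f (MvPolynomial.aeval (pnt ζ T k t) E) := f.pos_iff.2 hEx
  have e0 : max 1 (f (t ^ k)) = m ^ k := by rw [map_pow, max_pow _ (f.nonneg _)]
  have e1 : f (t ^ k - 1) = f A * f B := by
    rw [← map_mul, hAB, ← f.map_neg]
    congr 1
    ring
  have hl2 : 0 ≤ Real.log 2 := Real.log_nonneg (by norm_num)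
  have hlm : 0 ≤ Real.log m := Real.log_nonneg hm1
  set M1 := max 1 (f A) with hM1
  have hM11 : 1 ≤ M1 := le_max_left _ _
  -- bounds of logarithms
  have b1 : T.card * Real.log m - T.card * Real.log 2 ≤ Real.log M1 := by
    have := Real.log_le_log (pow_pos hm0 _) (le_fA f hfζ T t)
    rw [Real.log_pow, Real.log_mul (by positivity) (by positivity), Real.log_pow] at this
    linarith
  have b2 : Real.log (f B) ≤ (k - T.card) * (Real.log 2 + Real.log m) := by
    have h1 := Real.log_le_log pB (fA_le f hfζ (range k \ T) t)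
    rw [Real.log_pow, Real.log_mul (by norm_num) hm0.ne', Finset.card_sdiff_of_subset hT,
      Finset.card_range, Nat.cast_sub hcard] at h1
    exact h1
  have b3 : Real.log (f (A - 1)) + Real.log m ≤
      T.card * Real.log 4 + Real.log (f t) + T.card * Real.log m := by
    have h1 := Real.log_le_log (mul_pos pA1 hm0) (fA_sub_le f hfζ T t)
    rw [Real.log_mul pA1.ne' hm0.ne', Real.log_mul (by positivity) (by positivity),
      Real.log_mul (by positivity) pt.ne', Real.log_pow, Real.log_pow] at h1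
    exact h1
  have b4 : Real.log 4 = 2 * Real.log 2 := by
    rw [show (4 : ℝ) = 2 ^ 2 by norm_num, Real.log_pow]; norm_num
  have b5 : -Real.log (cE E) ≤ Real.log (max 1 (f (pnt ζ T k t 0)) ^ E.degreeOf 0 *
      max 1 (f (pnt ζ T k t 1)) ^ E.degreeOf 1 / f (MvPolynomial.aeval (pnt ζ T k t) E)) := by
    set Q := max 1 (f (pnt ζ T k t 0)) ^ E.degreeOf 0 *
      max 1 (f (pnt ζ T k t 1)) ^ E.degreeOf 1 with hQ
    have hQ0 : 0 < Q := by
      have h1 : 0 < max 1 (f (pnt ζ T k t 0)) := lt_of_lt_of_le one_pos (le_max_left _ _)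
      have h2 : 0 < max 1 (f (pnt ζ T k t 1)) := lt_of_lt_of_le one_pos (le_max_left _ _)
      positivity
    have hc : 0 < cE E := lt_of_lt_of_le one_pos (one_le_cE hE)
    have h1 : f (MvPolynomial.aeval (pnt ζ T k t) E) ≤ cE E * Q :=
      (abv_mv2 f E _).trans (mul_le_mul_of_nonneg_right
        (Finset.sum_le_sum fun m _ => hf _) hQ0.le)
    have h2 := Real.log_le_log pE h1
    rw [Real.log_mul hc.ne' hQ0.ne'] at h2
    rw [Real.log_div hQ0.ne' pE.ne']
    linarith
  have b6 : T.card * Real.log m - Real.log (f A) - k * Real.log 2 ≤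
      min (Real.log (max 1 (f (pnt ζ T k t 0)) / f (pnt ζ T k t 0 - 1)))
        (Real.log (max 1 (f (pnt ζ T k t 1)) / f (pnt ζ T k t 1))) := by
    have hc : (T.card : ℝ) ≤ k := by exact_mod_cast hcard
    refine le_min ?_ ?_
    · rw [x0, e0, e1, Real.log_div (by positivity) (by positivity), Real.log_pow,
        Real.log_mul pA.ne' pB.ne']
      have h0 : (0 : ℝ) ≤ T.card * Real.log 2 := by positivity
      nlinarith
    · rw [x1, ← hM1, Real.log_div (by positivity) pA.ne']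
      nlinarith
  unfold loc
  rw [x0, x1, e0, ← hM1] at *
  rw [Real.log_div (pow_pos hm0 _).ne' (f.pos_iff.2 (pow_ne_zero k ht)).ne', map_pow, Real.log_pow,
    Real.log_pow, Real.log_div (by positivity) pA1.ne'] at *
  have hc : (T.card : ℝ) * Real.log 2 ≤ k * Real.log 2 := by
    have : (T.card : ℝ) ≤ k := by exact_mod_cast hcard
    exact mul_le_mul_of_nonneg_right this hl2
  rw [b4] at b3
  nlinarith

theorem fin_loc (f : AbsoluteValue L ℝ) {ζ : L} (hf : ∀ y : L, IsIntegral ℤ y → f y ≤ 1)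
    (hna : ∀ a b : L, f (a + b) ≤ max (f a) (f b))
    {k : ℕ} (hk : 1 ≤ k) (hζ : IsPrimitiveRoot ζ k) {T : Finset ℕ} (hT : T ⊆ range k)
    (E : MvPolynomial (Fin 2) ℤ) {t : L} (ht : t ≠ 0) (hti : IsIntegral ℤ t)
    (hA : fA ζ T t ≠ 0)
    (hA1 : fA ζ T t ≠ 1) (htk : t ^ k ≠ 1) (hEx : MvPolynomial.aeval (pnt ζ T k t) E ≠ 0) :
    - (k + 1) * Real.log (f t) - 2 * Real.log (f (fA ζ T t)) ≤ loc f E (pnt ζ T k t) := by
  classical
  have hζi : IsIntegral ℤ ζ := hζ.isIntegral (by omega)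
  have hint : ∀ S : Finset ℕ, IsIntegral ℤ (fA ζ S t) := fun S =>
    IsIntegral.prod _ fun i _ => isIntegral_one.sub ((hζi.pow i).mul hti)
  set A := fA ζ T t with hAd
  set B := fA ζ (range k \ T) t with hBd
  have hAB : A * B = 1 - t ^ k := fA_mul hk hζ hT t
  have hB0 : B ≠ 0 := by
    intro h
    rw [h, mul_zero] at hAB
    exact htk (sub_eq_zero.1 hAB.symm).symm
  have x0 : pnt ζ T k t 0 = t ^ k := rfl
  have x1 : pnt ζ T k t 1 = A := rfl
  have pt : 0 < f t := f.pos_iff.2 ht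
  have pA : 0 < f A := f.pos_iff.2 hA
  have pB : 0 < f B := f.pos_iff.2 hB0
  have pA1 : 0 < f (A - 1) := f.pos_iff.2 (sub_ne_zero.2 hA1)
  have pE : 0 < f (MvPolynomial.aeval (pnt ζ T k t) E) := f.pos_iff.2 hEx
  have m0 : max 1 (f (t ^ k)) = 1 := max_eq_left (hf _ (hti.pow k))
  have m1 : max 1 (f A) = 1 := max_eq_left (hf _ (hint T))
  have e1 : f (t ^ k - 1) = f A * f B := by
    rw [← map_mul, hAB, ← f.map_neg]
    congr 1
    ring
  have hAt : ∀ S : Finset ℕ, f (fA ζ S t - 1) ≤ f t := by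
    intro S
    induction S using Finset.induction_on with
    | empty => simp [fA]
    | insert i S hi ih =>
      have e : fA ζ (insert i S) t - 1 = (fA ζ S t - 1) + -(ζ ^ i * t * fA ζ S t) := by
        unfold fA
        rw [Finset.prod_insert hi]
        ring
      rw [e]
      refine (hna _ _).trans (max_le ih ?_)
      rw [f.map_neg, map_mul, map_mul]
      have h1 := hf _ (hζi.pow i)
      have h2 := hf _ (hint S)
      calc f (ζ ^ i) * f t * f (fA ζ S t) ≤ 1 * f t * 1 := by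
            gcongr
        _ = f t := by ring
  have b3 : Real.log (f (A - 1)) ≤ Real.log (f t) := Real.log_le_log pA1 (hAt T)
  have hxi : ∀ j, IsIntegral ℤ (pnt ζ T k t j) := by
    intro j
    fin_cases j
    · exact hti.pow k
    · exact hint T
  have hEi : IsIntegral ℤ (MvPolynomial.aeval (pnt ζ T k t) E) := by
    rw [MvPolynomial.aeval_def, MvPolynomial.eval₂_eq']
    refine IsIntegral.sum _ fun m _ => ?_
    refine IsIntegral.mul (isIntegral_algebraMap) (IsIntegral.prod _ fun i _ => (hxi i).pow _)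
  have b5 : Real.log (f (MvPolynomial.aeval (pnt ζ T k t) E)) ≤ 0 :=
    Real.log_nonpos (f.nonneg _) (hf _ hEi)
  have b2 : Real.log (f B) ≤ 0 := Real.log_nonpos (f.nonneg _) (hf _ (hint _))
  have b6 : - Real.log (f A) ≤ min (Real.log (1 / (f A * f B))) (Real.log (1 / f A)) := by
    refine le_min ?_ ?_
    · rw [one_div, Real.log_inv, Real.log_mul pA.ne' pB.ne']
      linarith
    · rw [one_div, Real.log_inv]
  unfold loc
  rw [x0, x1, m0, m1, e1, one_pow, one_pow, Real.log_one, one_mul,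
    one_div (f (t ^ k)), Real.log_inv, map_pow, Real.log_pow, one_div (f (A - 1)), Real.log_inv,
    one_div (f (MvPolynomial.aeval (pnt ζ T k t) E)), Real.log_inv]
  linarith

end Pool.Agent.W231.R
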