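import Pool.Agent.W231.R.Fld
import Pool.Agent.W231.R.Loc2

set_option autoImplicit false

/-!
The global estimate for the points of the curves.
-/

namespace Pool.Agent.W231.R

open NumberField IsDedekindDomain Height Finset Module Pool.Agent.W231.V Pool.Agent.W231.M

variable {L : Type} [Field L] [NumberField L]

lemma height_int {y : L} (hy : IsIntegral ℤ y) :
    logHeight₁ y = ∑ w : InfinitePlace L, (w.mult : ℝ) * Real.log (max 1 (w y)) := by
  rw [height₁_eq ∅ y fun v _ => fv_isIntegral hy v]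
  unfold Sm
  rw [Finset.sum_empty, add_zero]
  refine Finset.sum_congr rfl fun w _ => ?_
  have h1 : Real.posLog (w.1 y) = Real.log (max 1 (w.1 y)) := posLog_abv w.1 y
  exact congrArg (fun z : ℝ => (w.mult : ℝ) * z) h1

lemma sum_mult' : ∑ w : InfinitePlace L, (w.mult : ℝ) = (finrank ℚ L : ℝ) := by
  exact_mod_cast InfinitePlace.sum_mult_eq

theorem estimate (U : Finset (HeightOneSpectrum (𝓞 L))) {k : ℕ} (hk : 1 ≤ k) {ζ : L}
    (hζ : IsPrimitiveRoot ζ k) {T : Finset ℕ} (hT : T ⊆ range k) {u : ℕ} (hu : 1 ≤ u)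
    (hU : ∀ v, v ∉ U → fv v (u : L) = 1) (E : MvPolynomial (Fin 2) ℤ) (hE : E ≠ 0) {t : L}
    (hti : IsIntegral ℤ t) (h : t * fA ζ T t = u) (hA1 : fA ζ T t ≠ 1) (htk : t ^ k ≠ 1)
    (hEx : MvPolynomial.aeval (pnt ζ T k t) E ≠ 0) :
    (2 * k + 3 * T.card + 1) * logHeight₁ t -
        finrank ℚ L * (6 * k * Real.log 2 + Real.log (cE E)) ≤
      Sm U (fun f => loc f E (pnt ζ T k t)) ∧
    logHeight₁ (pnt ζ T k t 0) = k * logHeight₁ t ∧
    logHeight₁ (pnt ζ T k t 1) ≤ T.card * logHeight₁ t + finrank ℚ L * (T.card * Real.log 2) ∧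
    finrank ℚ L * (Real.log u / (T.card + 1) - Real.log 2) ≤ logHeight₁ t := by
  have hζi : IsIntegral ℤ ζ := hζ.isIntegral (by omega)
  have hint : ∀ S : Finset ℕ, IsIntegral ℤ (fA ζ S t) := fun S =>
    IsIntegral.prod _ fun i _ => isIntegral_one.sub ((hζi.pow i).mul hti)
  have hu0 : (u : L) ≠ 0 := Nat.cast_ne_zero.2 (by omega)
  have ht0 : t ≠ 0 := left_ne_zero_of_mul (by rw [h]; exact hu0)
  have hA0 : fA ζ T t ≠ 0 := right_ne_zero_of_mul (by rw [h]; exact hu0)
  have hwζ : ∀ w : InfinitePlace L, w.1 ζ = 1 := by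
    intro w
    have h1 : w.1 ζ = w ζ := rfl
    rw [h1, ← InfinitePlace.norm_embedding_eq]
    exact (hζ.map_of_injective w.embedding.injective).norm'_eq_one (by omega)
  have hwu : ∀ w : InfinitePlace L, w.1 (u : L) = u := by
    intro w
    have h1 : w.1 (u : L) = w (u : L) := rfl
    rw [h1, ← InfinitePlace.norm_embedding_eq, map_natCast]
    simp
  have hwn : ∀ (w : InfinitePlace L) (n : ℤ), w.1 (n : L) ≤ |(n : ℝ)| := by
    intro w n
    have h1 : w.1 (n : L) = w (n : L) := rfl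
    rw [h1, ← InfinitePlace.norm_embedding_eq, map_intCast]
    simp
  have hsplit : ∀ v, v ∉ U → fv v t = 1 ∧ fv v (fA ζ T t) = 1 := by
    intro v hv
    have h1 := hU v hv
    rw [← h, map_mul] at h1
    have h2 := fv_isIntegral hti v
    have h3 := fv_isIntegral (hint T) v
    have h4 := (fv v).nonneg t
    have h5 := (fv v).nonneg (fA ζ T t)
    constructor
    · nlinarith
    · nlinarith
  have hLt : Lam U t = 0 := Lam_eq_zero U ht0 fun v hv => (hsplit v hv).1
  have hLA : Lam U (fA ζ T t) = 0 := Lam_eq_zero U hA0 fun v hv => (hsplit v hv).2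
  have hHt := height_int hti
  have huR : (1 : ℝ) ≤ u := by exact_mod_cast hu
  have hl2 : 0 ≤ Real.log 2 := Real.log_nonneg (by norm_num)
  refine ⟨?_, ?_, ?_, ?_⟩
  · -- the proximity
    have h1 : ∑ w : InfinitePlace L, (w.mult : ℝ) * ((2 * k + 3 * T.card + 1) *
        Real.log (max 1 (w t)) - (k + 1) * Real.log (w t) - 2 * Real.log (w (fA ζ T t)) -
        (6 * k * Real.log 2 + Real.log (cE E))) + ∑ v ∈ U, (-(k + 1) * Real.log (fv v t) -
        2 * Real.log (fv v (fA ζ T t))) ≤ Sm U (fun f => loc f E (pnt ζ T k t)) := by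
      unfold Sm
      refine add_le_add (Finset.sum_le_sum fun w _ => mul_le_mul_of_nonneg_left ?_
        (Nat.cast_nonneg _)) (Finset.sum_le_sum fun v _ => ?_)
      · exact arch_loc w.1 (hwn w) hk hζ (hwζ w) hT E hE ht0 hA0 hA1 htk hEx
      · exact fin_loc (fv v) (fun y hy => fv_isIntegral hy v) (fv_na v) hk hζ hT E ht0 hti hA0
          hA1 htk hEx
    refine le_trans (le_of_eq ?_) h1
    have e1 : ∑ w : InfinitePlace L, (w.mult : ℝ) * ((2 * k + 3 * T.card + 1) *
        Real.log (max 1 (w t)) - (k + 1) * Real.log (w t) - 2 * Real.log (w (fA ζ T t)) -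
        (6 * k * Real.log 2 + Real.log (cE E))) = (2 * k + 3 * T.card + 1) * logHeight₁ t -
        (k + 1) * (∑ w : InfinitePlace L, (w.mult : ℝ) * Real.log (w t)) -
        2 * (∑ w : InfinitePlace L, (w.mult : ℝ) * Real.log (w (fA ζ T t))) -
        finrank ℚ L * (6 * k * Real.log 2 + Real.log (cE E)) := by
      rw [hHt, ← sum_mult', Finset.sum_mul, Finset.mul_sum, Finset.mul_sum, Finset.mul_sum,
        ← Finset.sum_sub_distrib, ← Finset.sum_sub_distrib, ← Finset.sum_sub_distrib]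
      refine Finset.sum_congr rfl fun w _ => ?_
      ring
    have e2 : ∑ v ∈ U, (-(k + 1) * Real.log (fv v t) - 2 * Real.log (fv v (fA ζ T t))) =
        -(k + 1) * (∑ v ∈ U, Real.log (fv v t)) - 2 * ∑ v ∈ U, Real.log (fv v (fA ζ T t)) := by
      rw [Finset.sum_sub_distrib, Finset.mul_sum, Finset.mul_sum]
    rw [e1, e2]
    unfold Lam at hLt hLA
    have e3 : ∑ w : InfinitePlace L, (w.mult : ℝ) * Real.log (w t) =
        -∑ v ∈ U, Real.log (fv v t) := by linarith
    have e4 : ∑ w : InfinitePlace L, (w.mult : ℝ) * Real.log (w (fA ζ T t)) =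
        -∑ v ∈ U, Real.log (fv v (fA ζ T t)) := by linarith
    rw [e3, e4]
    ring
  · change logHeight₁ (t ^ k) = _
    rw [logHeight₁_pow]
  · change logHeight₁ (fA ζ T t) ≤ _
    rw [height_int (hint T), hHt, ← sum_mult', Finset.mul_sum, Finset.sum_mul,
      ← Finset.sum_add_distrib]
    refine Finset.sum_le_sum fun w _ => ?_
    have h1 : max 1 (w.1 (fA ζ T t)) ≤ (2 * max 1 (w.1 t)) ^ T.card := by
      refine max_le (one_le_pow₀ ?_) (fA_le w.1 (hwζ w) T t)
      have := le_max_left (1 : ℝ) (w.1 t)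
      linarith
    have h2 := Real.log_le_log (lt_of_lt_of_le one_pos (le_max_left _ _)) h1
    have h3 : (0 : ℝ) < max 1 (w.1 t) := lt_of_lt_of_le one_pos (le_max_left _ _)
    rw [Real.log_pow, Real.log_mul (by norm_num) h3.ne'] at h2
    have h4 := mul_le_mul_of_nonneg_left h2 (Nat.cast_nonneg (α := ℝ) w.mult)
    refine h4.trans (le_of_eq ?_)
    change _ = (T.card : ℝ) * ((w.mult : ℝ) * Real.log (max 1 (w.1 t))) + _
    ring
  · rw [hHt, ← sum_mult', Finset.sum_mul]
    refine Finset.sum_le_sum fun w _ => mul_le_mul_of_nonneg_left ?_ (Nat.cast_nonneg _)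
    have h1 := (size w.1 (hwζ w) T h (by rw [hwu]; exact huR)).1
    rw [hwu] at h1
    have h3 : (0 : ℝ) < max 1 (w.1 t) := lt_of_lt_of_le one_pos (le_max_left _ _)
    have h2 := Real.log_le_log (by linarith) h1
    rw [Real.log_mul (by positivity) (by positivity), Real.log_pow, Real.log_pow] at h2
    push_cast at h2
    have ha1 : (0 : ℝ) < (T.card : ℝ) + 1 := by positivity
    rw [sub_le_iff_le_add, div_le_iff₀ ha1]
    change _ ≤ (Real.log (max 1 (w.1 t)) + Real.log 2) * ((T.card : ℝ) + 1)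
    nlinarith

end Pool.Agent.W231.R
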