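import Pool.Agent.W231.V.Main2
import Pool.Agent.W231.M.Place

set_option autoImplicit false

/-!
Local bounds along the curves `x = t ^ k`, `y = ∏ (1 - ζ ^ i t)`.
-/

namespace Pool.Agent.W231.R

open NumberField IsDedekindDomain Height Finset Pool.Agent.W231.V Pool.Agent.W231.M

variable {L : Type*} [Field L]

/-- the partial product -/
def fA (ζ : L) (T : Finset ℕ) (t : L) : L := ∏ i ∈ T, (1 - ζ ^ i * t)

lemma fA_zero (ζ : L) (T : Finset ℕ) : fA ζ T 0 = 1 := by
  simp [fA]

section arch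

variable (f : AbsoluteValue L ℝ) {ζ : L} (hζ : f ζ = 1)

lemma step_le (hζ : f ζ = 1) (i : ℕ) (t : L) : f (1 - ζ ^ i * t) ≤ 2 * max 1 (f t) := by
  have h1 : f (1 - ζ ^ i * t) ≤ f 1 + f (ζ ^ i * t) := by
    have := f.sub_le 1 0 (ζ ^ i * t)
    have h2 := f.map_neg (ζ ^ i * t)
    have h3 := f.add_le 1 (-(ζ ^ i * t))
    rw [h2, ← sub_eq_add_neg] at h3
    exact h3
  rw [map_one, map_mul, map_pow, hζ, one_pow, one_mul] at h1
  have := le_max_left (1 : ℝ) (f t)
  have := le_max_right (1 : ℝ) (f t)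
  linarith

lemma step_ge (hζ : f ζ = 1) (i : ℕ) (t : L) : f t - 1 ≤ f (1 - ζ ^ i * t) := by
  have h1 : f (ζ ^ i * t) ≤ f 1 + f (1 - ζ ^ i * t) := by
    have h3 := f.add_le 1 (-(1 - ζ ^ i * t))
    rw [f.map_neg] at h3
    have e : (1 : L) + -(1 - ζ ^ i * t) = ζ ^ i * t := by ring
    rw [e] at h3
    exact h3
  rw [map_one, map_mul, map_pow, hζ, one_pow, one_mul] at h1
  linarith

/-- (L1) -/
lemma fA_le (hζ : f ζ = 1) (T : Finset ℕ) (t : L) :
    f (fA ζ T t) ≤ (2 * max 1 (f t)) ^ T.card := by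
  rw [fA, map_prod, ← Finset.prod_const]
  exact Finset.prod_le_prod (fun i _ => f.nonneg _) fun i _ => step_le f hζ i t

/-- (L2) -/
lemma le_fA (hζ : f ζ = 1) (T : Finset ℕ) (t : L) :
    max 1 (f t) ^ T.card ≤ 2 ^ T.card * max 1 (f (fA ζ T t)) := by
  by_cases h : f t < 2
  · have h1 : max 1 (f t) ≤ 2 := max_le (by norm_num) h.le
    calc max 1 (f t) ^ T.card ≤ 2 ^ T.card :=
          pow_le_pow_left₀ (le_trans zero_le_one (le_max_left _ _)) h1 _
      _ = 2 ^ T.card * 1 := (mul_one _).symm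
      _ ≤ _ := mul_le_mul_of_nonneg_left (le_max_left _ _) (by positivity)
  · push Not at h
    have h1 : max 1 (f t) = f t := max_eq_right (by linarith)
    have h2 : (f t / 2) ^ T.card ≤ f (fA ζ T t) := by
      rw [fA, map_prod, ← Finset.prod_const]
      refine Finset.prod_le_prod (fun i _ => by linarith) fun i _ => ?_
      have := step_ge f hζ i t
      linarith
    rw [h1]
    calc f t ^ T.card = 2 ^ T.card * (f t / 2) ^ T.card := by
          rw [← mul_pow]; congr 1; ring
      _ ≤ 2 ^ T.card * max 1 (f (fA ζ T t)) :=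
        mul_le_mul_of_nonneg_left (h2.trans (le_max_right _ _)) (by positivity)

/-- (L3) -/
lemma fA_sub_le (hζ : f ζ = 1) (T : Finset ℕ) (t : L) :
    f (fA ζ T t - 1) * max 1 (f t) ≤ 4 ^ T.card * f t * max 1 (f t) ^ T.card := by
  classical
  have hm : (1 : ℝ) ≤ max 1 (f t) := le_max_left _ _
  induction T using Finset.induction_on with
  | empty => simp [fA]
  | insert i T hi ih =>
    have e : fA ζ (insert i T) t - 1 = (fA ζ T t - 1) + -(ζ ^ i * t * fA ζ T t) := by
      unfold fA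
      rw [Finset.prod_insert hi]
      ring
    have h1 : f (fA ζ (insert i T) t - 1) ≤ f (fA ζ T t - 1) + f t * f (fA ζ T t) := by
      rw [e]
      refine (f.add_le _ _).trans ?_
      rw [f.map_neg, map_mul, map_mul, map_pow, hζ, one_pow, one_mul]
    have h2 := fA_le f hζ T t
    have hft := f.nonneg t
    rw [Finset.card_insert_of_notMem hi]
    have h3 : f t * f (fA ζ T t) * max 1 (f t) ≤ 2 ^ T.card * f t * max 1 (f t) ^ (T.card + 1) := by
      calc f t * f (fA ζ T t) * max 1 (f t) ≤ f t * (2 * max 1 (f t)) ^ T.card * max 1 (f t) := by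
            gcongr
        _ = _ := by rw [mul_pow, pow_succ]; ring
    have h4 : max 1 (f t) ^ T.card ≤ max 1 (f t) ^ (T.card + 1) :=
      pow_le_pow_right₀ hm (Nat.le_succ _)
    have h5 : (2 : ℝ) ^ T.card ≤ 4 ^ T.card := pow_le_pow_left₀ (by norm_num) (by norm_num) _
    have h6 : (0 : ℝ) ≤ f t * max 1 (f t) ^ (T.card + 1) := by positivity
    calc f (fA ζ (insert i T) t - 1) * max 1 (f t)
        ≤ (f (fA ζ T t - 1) + f t * f (fA ζ T t)) * max 1 (f t) :=
          mul_le_mul_of_nonneg_right h1 (by linarith)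
      _ = f (fA ζ T t - 1) * max 1 (f t) + f t * f (fA ζ T t) * max 1 (f t) := by ring
      _ ≤ 4 ^ T.card * f t * max 1 (f t) ^ T.card + 2 ^ T.card * f t * max 1 (f t) ^ (T.card + 1) :=
          add_le_add ih h3
      _ ≤ 4 ^ T.card * f t * max 1 (f t) ^ (T.card + 1) +
          4 ^ T.card * f t * max 1 (f t) ^ (T.card + 1) := by
          gcongr
      _ ≤ 4 ^ (T.card + 1) * f t * max 1 (f t) ^ (T.card + 1) := by
          rw [pow_succ (4 : ℝ)]
          nlinarith [mul_nonneg (by positivity : (0 : ℝ) ≤ 4 ^ T.card) h6]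

end arch

/-- the size of the parameter -/
lemma size (f : AbsoluteValue L ℝ) {ζ : L} (hζ : f ζ = 1) (T : Finset ℕ) {t u : L}
    (h : t * fA ζ T t = u) (hu : 1 ≤ f u) :
    f u ≤ 2 ^ T.card * max 1 (f t) ^ (T.card + 1) ∧
      max 1 (f t) ^ (T.card + 1) ≤ 2 ^ (T.card + 1) * f u := by
  constructor
  · rw [← h, map_mul]
    calc f t * f (fA ζ T t) ≤ max 1 (f t) * (2 * max 1 (f t)) ^ T.card :=
          mul_le_mul (le_max_right _ _) (fA_le f hζ T t) (f.nonneg _)
            (le_trans zero_le_one (le_max_left _ _))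
      _ = _ := by rw [mul_pow, pow_succ]; ring
  · by_cases h2 : f t < 2
    · have h1 : max 1 (f t) ≤ 2 := max_le (by norm_num) h2.le
      calc max 1 (f t) ^ (T.card + 1) ≤ 2 ^ (T.card + 1) :=
            pow_le_pow_left₀ (le_trans zero_le_one (le_max_left _ _)) h1 _
        _ = 2 ^ (T.card + 1) * 1 := (mul_one _).symm
        _ ≤ _ := mul_le_mul_of_nonneg_left hu (by positivity)
    · push Not at h2
      have h1 : max 1 (f t) = f t := max_eq_right (by linarith)
      have h3 : (f t / 2) ^ T.card ≤ f (fA ζ T t) := by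
        rw [fA, map_prod, ← Finset.prod_const]
        refine Finset.prod_le_prod (fun i _ => by linarith) fun i _ => ?_
        have := step_ge f hζ i t
        linarith
      rw [h1, ← h, map_mul]
      calc f t ^ (T.card + 1) = 2 ^ T.card * (f t * (f t / 2) ^ T.card) := by
            rw [div_pow, pow_succ]; field_simp
        _ ≤ 2 ^ T.card * (f t * f (fA ζ T t)) := by gcongr
        _ ≤ 2 ^ (T.card + 1) * (f t * f (fA ζ T t)) := by
          have : (0 : ℝ) ≤ f t * f (fA ζ T t) := mul_nonneg (f.nonneg _) (f.nonneg _)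
          exact mul_le_mul_of_nonneg_right (pow_le_pow_right₀ (by norm_num) (Nat.le_succ _)) this

end Pool.Agent.W231.R
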