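import Pool.Agent.W231.R.Disc
import Pool.Agent.W231.R.Loc

set_option autoImplicit false

/-!
The number field generated by a root of `t ∏ (1 - ζ ^ i t) = u` and its discriminant.
-/

namespace Pool.Agent.W231.R

open NumberField Module Finset Polynomial

/-- the polynomial `∏ (1 - ζ ^ i X)` -/
noncomputable def polyA {F : Type*} [Field F] (ζ : F) (T : Finset ℕ) : F[X] :=
  ∏ i ∈ T, (1 - C (ζ ^ i) * X)

lemma polyA_eval {F : Type*} [Field F] (ζ : F) (T : Finset ℕ) (t : F) :
    (polyA ζ T).eval t = fA ζ T t := by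
  unfold polyA fA
  rw [eval_prod]
  exact Finset.prod_congr rfl fun i _ => by simp

lemma polyA_aeval {F L : Type*} [Field F] [Field L] [Algebra F L] (ζ : F) (T : Finset ℕ) (t : L) :
    aeval t (polyA ζ T) = fA (algebraMap F L ζ) T t := by
  unfold polyA fA
  rw [map_prod]
  exact Finset.prod_congr rfl fun i _ => by simp

lemma lin_natDegree {F : Type*} [Field F] {a : F} (ha : a ≠ 0) :
    ((1 : F[X]) - C a * X).natDegree = 1 := by
  have : (1 : F[X]) - C a * X = C (-a) * X + C 1 := by
    rw [C_neg, C_1]; ring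
  rw [this, natDegree_linear (neg_ne_zero.2 ha)]

lemma lin_ne {F : Type*} [Field F] (a : F) : ((1 : F[X]) - C a * X) ≠ 0 := by
  intro h
  have := congrArg (eval 0) h
  simp at this

lemma polyA_ne {F : Type*} [Field F] (ζ : F) (T : Finset ℕ) : polyA ζ T ≠ 0 :=
  Finset.prod_ne_zero_iff.2 fun _ _ => lin_ne _

lemma polyA_natDegree {F : Type*} [Field F] {ζ : F} (hζ : ζ ≠ 0) (T : Finset ℕ) :
    (polyA ζ T).natDegree = T.card := by
  unfold polyA
  rw [natDegree_prod _ _ fun i _ => lin_ne _, Finset.sum_congr rfl fun i _ =>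
    lin_natDegree (pow_ne_zero i hζ)]
  simp

/-- integrality of the solutions -/
lemma sol_integral {L : Type*} [Field L] [NumberField L] {k : ℕ} (hk : 1 ≤ k) {ζ : L}
    (hζ : IsPrimitiveRoot ζ k) (T : Finset ℕ) (u : ℕ) {t : L} (h : t * fA ζ T t = u) :
    IsIntegral ℤ t := by
  have hζi : IsIntegral ℤ ζ := hζ.isIntegral (by omega)
  have hζk : ζ * ζ ^ (k - 1) = 1 := by
    rw [← pow_succ', Nat.sub_add_cancel hk, hζ.pow_eq_one]
  have hηi : ∀ i, IsIntegral ℤ ((ζ ^ (k - 1)) ^ i) := fun i => (hζi.pow _).pow _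
  have hη : ∀ i, ζ ^ i * (ζ ^ (k - 1)) ^ i = 1 := fun i => by rw [← mul_pow, hζk, one_pow]
  set η : ℕ → 𝓞 L := fun i => ⟨(ζ ^ (k - 1)) ^ i, hηi i⟩ with hηdef
  set w : 𝓞 L := (u : 𝓞 L) * ∏ i ∈ T, (-η i) with hw
  have hcoe : ∀ i, algebraMap (𝓞 L) L (η i) = (ζ ^ (k - 1)) ^ i := fun i => rfl
  have hrel : t * ∏ i ∈ T, (t - algebraMap (𝓞 L) L (η i)) = algebraMap (𝓞 L) L w := by
    rw [hw, map_mul, map_prod, map_natCast, ← h, mul_assoc]
    congr 1
    unfold fA
    rw [← Finset.prod_mul_distrib]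
    refine Finset.prod_congr rfl fun i _ => ?_
    rw [map_neg, hcoe]
    linear_combination (-t) * hη i
  have h1 : IsIntegral (𝓞 L) t := by
    refine ⟨X * ∏ i ∈ T, (X - C (η i)) - C w, ?_, ?_⟩
    · have hm : (∏ i ∈ T, (X - C (η i))).Monic := monic_prod_of_monic _ _ fun i _ => monic_X_sub_C _
      have hm2 : (X * ∏ i ∈ T, (X - C (η i))).Monic := monic_X.mul hm
      refine hm2.sub_of_left ?_
      rw [degree_mul, degree_X]
      have h0 : (0 : WithBot ℕ) ≤ (∏ i ∈ T, (X - C (η i))).degree := by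
        rw [degree_eq_natDegree hm.ne_zero]
        exact_mod_cast Nat.zero_le _
      have h1 : (1 : WithBot ℕ) + 0 ≤ 1 + (∏ i ∈ T, (X - C (η i))).degree := by gcongr
      rw [add_zero] at h1
      exact (degree_C_le.trans_lt (by norm_num)).trans_le h1
    · rw [eval₂_sub, eval₂_mul, eval₂_X, eval₂_C, eval₂_finsetProd]
      simp only [eval₂_sub, eval₂_X, eval₂_C]
      rw [hrel, sub_self]
  exact isIntegral_trans t h1

theorem exists_field (L0 : Type) [Field L0] [NumberField L0] (k : ℕ) [NeZero k]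
    [IsCyclotomicExtension {k} ℚ L0] {ζ0 : L0} (hζ : IsPrimitiveRoot ζ0 k) (T : Finset ℕ) (u : ℕ)
    (hu : 1 ≤ u) :
    ∃ (L : Type) (_ : Field L) (_ : NumberField L) (_ : Algebra L0 L) (t : L),
      IsIntegral ℤ t ∧ t * fA (algebraMap L0 L ζ0) T t = u ∧
      finrank ℚ L ≤ k.totient * (T.card + 1) ∧
      Real.log |((discr L : ℤ) : ℝ)| ≤ finrank ℚ L * (2 * Real.log (finrank ℚ L) +
        T.card * (Real.log 2 + Real.log u / (T.card + 1))) := by
  have hk : 1 ≤ k := Nat.one_le_iff_ne_zero.2 (NeZero.ne k)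
  have hζne : ζ0 ≠ 0 := hζ.ne_zero (by omega)
  set f : L0[X] := X * polyA ζ0 T - C (u : L0) with hf
  have hdeg : f.natDegree = T.card + 1 := by
    rw [hf, natDegree_sub_C, natDegree_mul X_ne_zero (polyA_ne _ _), natDegree_X,
      polyA_natDegree hζne, add_comm]
  have hf0 : f ≠ 0 := by
    intro h
    rw [h, natDegree_zero] at hdeg
    omega
  obtain ⟨t, ht⟩ := IsAlgClosed.exists_aeval_eq_zero (AlgebraicClosure L0) f (by
    intro h
    rw [degree_eq_natDegree hf0, hdeg] at h
    have : (T.card + 1 : ℕ) = 0 := by exact_mod_cast h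
    omega)
  have hint0 : IsIntegral L0 t := Algebra.IsIntegral.isIntegral t
  set L := IntermediateField.adjoin L0 {t} with hL
  have : FiniteDimensional L0 L := IntermediateField.adjoin.finiteDimensional hint0
  have : CharZero L := charZero_of_injective_algebraMap (algebraMap L0 L).injective
  have : FiniteDimensional ℚ L := FiniteDimensional.trans ℚ L0 L
  have hnf : NumberField L := {}
  set t' : L := IntermediateField.AdjoinSimple.gen L0 t with ht'
  have htrel : t' * fA (algebraMap L0 L ζ0) T t' = u := by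
    have h1 : aeval t' f = 0 := by
      apply (algebraMap L (AlgebraicClosure L0)).injective
      rw [← aeval_algebraMap_apply, map_zero, ht', IntermediateField.AdjoinSimple.algebraMap_gen]
      exact ht
    rw [hf, map_sub, map_mul, aeval_X, polyA_aeval, aeval_C, map_natCast, sub_eq_zero] at h1
    exact h1
  have hζL : IsPrimitiveRoot (algebraMap L0 L ζ0) k := hζ.map_of_injective (algebraMap L0 L).injective
  have hti : IsIntegral ℤ t' := sol_integral hk hζL T u htrel
  -- the basis
  set pb0 := hζ.powerBasis ℚ with hpb0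
  set pb1 := IntermediateField.adjoin.powerBasis hint0 with hpb1
  have hdim0 : pb0.dim = k.totient := by
    rw [← pb0.finrank]
    exact IsCyclotomicExtension.Rat.finrank k L0
  have hdim1 : pb1.dim ≤ T.card + 1 := by
    rw [hpb1, IntermediateField.adjoin.powerBasis_dim, ← hdeg]
    exact natDegree_le_of_dvd (minpoly.dvd L0 t ht) hf0
  have hgen0 : pb0.gen = ζ0 := hζ.powerBasis_gen ℚ
  have hgen1 : pb1.gen = t' := rfl
  set b : Basis (Fin pb0.dim × Fin pb1.dim) ℚ L := pb0.basis.smulTower pb1.basis with hb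
  have hbv : ∀ p, b p = (algebraMap L0 L ζ0) ^ (p.1 : ℕ) * t' ^ (p.2 : ℕ) := by
    intro p
    rw [hb, Basis.smulTower_apply, pb0.basis_eq_pow, pb1.basis_eq_pow, hgen0, hgen1,
      Algebra.smul_def, map_pow]
  have hfin : finrank ℚ L = pb0.dim * pb1.dim := by
    rw [finrank_eq_card_basis b, Fintype.card_prod, Fintype.card_fin, Fintype.card_fin]
  have huR : (1 : ℝ) ≤ u := by exact_mod_cast hu
  set a := T.card with ha
  have ha1 : (0 : ℝ) < (a : ℝ) + 1 := by positivity
  set M : ℝ := 2 * (u : ℝ) ^ (1 / ((a : ℝ) + 1)) with hM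
  have hM1 : 1 ≤ M := by
    have := Real.one_le_rpow huR (by positivity : 0 ≤ 1 / ((a : ℝ) + 1))
    linarith
  have hMpow : M ^ (a + 1) = 2 ^ (a + 1) * u := by
    rw [hM, mul_pow]
    congr 1
    rw [← Real.rpow_natCast, ← Real.rpow_mul (by linarith)]
    push_cast
    rw [one_div, inv_mul_cancel₀ ha1.ne', Real.rpow_one]
  have hMlog : Real.log M = Real.log 2 + Real.log u / (a + 1) := by
    rw [hM, Real.log_mul (by norm_num) (by positivity), Real.log_rpow (by linarith)]
    ring
  have hσ : ∀ σ : L →+* ℂ, ‖σ t'‖ ≤ M := by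
    intro σ
    set fσ : AbsoluteValue L ℝ := (NormedField.toAbsoluteValue ℂ).comp σ.injective with hfσ
    have hfσ' : ∀ y, fσ y = ‖σ y‖ := fun y => rfl
    have hζ1 : fσ (algebraMap L0 L ζ0) = 1 := by
      rw [hfσ']
      exact (hζL.map_of_injective σ.injective).norm'_eq_one (by omega)
    have hu1 : fσ ((u : ℕ) : L) = u := by
      rw [hfσ', map_natCast]
      simp
    have h1 := (size fσ hζ1 T htrel (by rw [hu1]; exact huR)).2
    rw [hu1, ← hMpow] at h1
    have h2 : max 1 (fσ t') ≤ M := by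
      by_contra hcon
      push Not at hcon
      have := pow_lt_pow_left₀ hcon (by linarith) (Nat.succ_ne_zero a)
      exact absurd h1 (not_le.2 this)
    rw [← hfσ']
    exact (le_max_right _ _).trans h2
  have hdisc := abs_discr_le b (fun p => by
    rw [hbv]
    exact ((hζL.isIntegral (by omega)).pow _).mul (hti.pow _)) (fun p => M ^ (p.2 : ℕ)) (by
    intro p σ
    rw [hbv, map_mul, norm_mul, map_pow, map_pow, norm_pow, norm_pow,
      (hζL.map_of_injective σ.injective).norm'_eq_one (by omega), one_pow, one_mul]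
    exact pow_le_pow_left₀ (norm_nonneg _) (hσ σ) _)
  refine ⟨L, inferInstance, hnf, inferInstance, t', hti, htrel, ?_, ?_⟩
  · rw [hfin, hdim0]
    exact Nat.mul_le_mul_left _ hdim1
  · have hN : 1 ≤ finrank ℚ L := Nat.succ_le_of_lt finrank_pos
    set N := finrank ℚ L with hNd
    have hcard : Fintype.card (Fin pb0.dim × Fin pb1.dim) = N := by
      rw [hfin, Fintype.card_prod, Fintype.card_fin, Fintype.card_fin]
    rw [hcard] at hdisc
    have hpos : 0 < |((discr L : ℤ) : ℝ)| := abs_pos.2 (by exact_mod_cast discr_ne_zero L)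
    have h1 := Real.log_le_log hpos hdisc
    have hprod0 : 0 < ∏ p : Fin pb0.dim × Fin pb1.dim, M ^ (p.2 : ℕ) :=
      Finset.prod_pos fun p _ => by positivity
    rw [Real.log_pow, Real.log_mul (by positivity) hprod0.ne',
      Real.log_prod (fun p _ => (by positivity : M ^ (p.2 : ℕ) ≠ 0))] at h1
    simp only [Real.log_pow] at h1
    have h2 : ∑ p : Fin pb0.dim × Fin pb1.dim, ((p.2 : ℕ) : ℝ) * Real.log M =
        pb0.dim * (∑ j ∈ Finset.range pb1.dim, (j : ℝ)) * Real.log M := by
      rw [Fintype.sum_prod_type]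
      simp only [Finset.sum_const, Finset.card_univ, Fintype.card_fin, nsmul_eq_mul]
      rw [← Fin.sum_univ_eq_sum_range (fun j => (j : ℝ)), ← Finset.sum_mul]
      ring
    have h3 : (∑ j ∈ Finset.range pb1.dim, (j : ℝ)) * 2 ≤ pb1.dim * a := by
      have h4 := Finset.sum_range_id_mul_two pb1.dim
      have h5 : pb1.dim * (pb1.dim - 1) ≤ pb1.dim * a := Nat.mul_le_mul_left _ (by omega)
      rw [← h4] at h5
      have h6 : (((∑ j ∈ Finset.range pb1.dim, j) * 2 : ℕ) : ℝ) ≤ ((pb1.dim * a : ℕ) : ℝ) := by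
        exact_mod_cast h5
      push_cast at h6
      exact h6
    have h7 : Real.log ((N.factorial : ℕ) : ℝ) ≤ N * Real.log N := by
      rw [← Real.log_pow]
      refine Real.log_le_log (by positivity) ?_
      exact_mod_cast Nat.factorial_le_pow N
    have hNR : (N : ℝ) = pb0.dim * pb1.dim := by exact_mod_cast hfin
    have hlM : 0 ≤ Real.log M := Real.log_nonneg hM1
    rw [h2] at h1
    rw [← hMlog]
    push_cast at h1
    have h8 : (pb0.dim : ℝ) * ((∑ j ∈ Finset.range pb1.dim, (j : ℝ)) * 2) * Real.log M ≤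
        pb0.dim * (pb1.dim * a) * Real.log M := by
      gcongr
    have h9 : (pb0.dim : ℝ) * (pb1.dim * a) * Real.log M = N * (a * Real.log M) := by
      rw [hNR]; ring
    linarith

end Pool.Agent.W231.R
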